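import Pool.Agent.GZ72.Fin

/-!
# MP_63b904_nt: the number after a zero is prime or a product of two primes, or the zero is small

`a p n` (file GZ72/Defs) is the sequence of the problem, with a dummy value at `0`, and `Consecutive p n₀ n` says
that `n₀ ≥ 1` and `n > n₀` are two zeros of it without a zero between them.
-/

set_option autoImplicit false

namespace Pool.Agent.Results.MP_63b904_nt.PrimeOrTwoPrimes

open Pool.Agent.GZ72

/-- Let `p` be prime and `δ > 0`. For all but finitely many pairs of consecutive zeros `n₀ < n` of `a_p`: every prime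
factor of `p (n + 1) ^ 2 - 1` is larger than `2 n - (1 + δ) p n₀ ^ 2`, and if `n ≥ (1 / 2 + δ) p n₀ ^ 2`, then
`p (n + 1) ^ 2 - 1` is prime or a product of two primes. -/
theorem result (p : ℕ) (hp : p.Prime) (δ : ℝ) (hδ : 0 < δ) :
    ∃ N₀ : ℕ, ∀ n₀ n : ℕ, N₀ ≤ n₀ → Consecutive p n₀ n →
      (∀ q : ℕ, q.Prime → q ∣ p * (n + 1) ^ 2 - 1 →
        2 * n - (1 + δ) * (p * (n₀ : ℝ) ^ 2) < q) ∧
      ((1 / 2 + δ) * (p * (n₀ : ℝ) ^ 2) ≤ n →
        (p * (n + 1) ^ 2 - 1).Prime ∨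
          ∃ q₁ q₂ : ℕ, q₁.Prime ∧ q₂.Prime ∧ p * (n + 1) ^ 2 - 1 = q₁ * q₂) :=
  main_half hp.one_le hδ

end Pool.Agent.Results.MP_63b904_nt.PrimeOrTwoPrimes
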